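import Pool.Agent.Helper20.HP.Data2
import Pool.Agent.Helper62.HP.Q6b
import Pool.Agent.Helper82.HP.D1
import Pool.Agent.Helper59.HP.B1
import Pool.Agent.Helper41.HP.PA
import Pool.Agent.Helper93.HP.P4

/-!
# HOPF-M1: positivity of the curvature numerator on the local model (assembly)
-/

set_option autoImplicit false

open Filter Metric Module Set
open scoped Topology ContDiff RealInnerProductSpace Manifold Quaternion

namespace Pool.Agent.Helper51.HP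
open Pool.Agent.Helper20.PC Pool.Agent.Helper20.HP

/-! ### frames -/

lemma inner3 (a b : E3) : (⟪a, b⟫ : ℝ) = a 0 * b 0 + a 1 * b 1 + a 2 * b 2 :=
  Pool.Agent.Helper62.HP.inner3 a b

lemma norm_cr {x X : E3} (hx : ‖x‖ = 1) (hX : ‖X‖ = 1) (hxX : ⟪x, X⟫ = 0) : ‖cr x X‖ = 1 := by
  have h := Pool.Agent.Helper62.HP.cr_norm_sq x X
  rw [hx, hX, hxX] at h
  have h0 := norm_nonneg (cr x X)
  nlinarith

lemma inner_cr_left (x X : E3) : (⟪x, cr x X⟫ : ℝ) = 0 := by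
  rw [inner3]; simp [cr]; ring

lemma inner_cr_right (x X : E3) : (⟪X, cr x X⟫ : ℝ) = 0 := by
  rw [inner3]; simp [cr]; ring

/-- the diagonal unit vector. -/
lemma diag_frame {x X : E3} (hx : ‖x‖ = 1) (hX : ‖X‖ = 1) (hxX : ⟪x, X⟫ = 0) :
    ‖(√2)⁻¹ • (X + cr x X)‖ = 1 ∧ ⟪x, (√2)⁻¹ • (X + cr x X)⟫ = 0 := by
  have h2 : ‖X + cr x X‖ ^ 2 = 2 := by
    have h3 := norm_add_sq_real X (cr x X)
    rw [inner_cr_right, hX, norm_cr hx hX hxX] at h3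
    rw [h3]; norm_num
  constructor
  · rw [norm_smul, Real.norm_eq_abs, abs_of_pos (by positivity)]
    have h4 : ‖X + cr x X‖ = √2 := by
      rw [← h2, Real.sqrt_sq (norm_nonneg _)]
    rw [h4]
    exact inv_mul_cancel₀ (by positivity)
  · rw [inner_smul_right, inner_add_right, hxX, inner_cr_left]; simp

/-- every unit vector belongs to an orthonormal frame. -/
lemma exists_frame (x : E3) (hx : ‖x‖ = 1) : ∃ X : E3, ‖X‖ = 1 ∧ ⟪x, X⟫ = 0 := by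
  have key : ∀ e : E3, cr x e ≠ 0 → ∃ X : E3, ‖X‖ = 1 ∧ ⟪x, X⟫ = 0 := by
    intro e he
    refine ⟨‖cr x e‖⁻¹ • cr x e, ?_, ?_⟩
    · rw [norm_smul, norm_inv, norm_norm]
      exact inv_mul_cancel₀ (norm_ne_zero_iff.mpr he)
    · rw [inner_smul_right, inner_cr_left, mul_zero]
  by_cases h : cr x !₂[1, 0, 0] = 0
  · by_cases h' : cr x !₂[0, 1, 0] = 0
    · exfalso
      have a1 := congrArg (fun v : E3 => v 1) h
      have a2 := congrArg (fun v : E3 => v 2) h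
      have a3 := congrArg (fun v : E3 => v 0) h'
      have a4 := congrArg (fun v : E3 => v 2) h'
      simp [cr] at a1 a2 a3 a4
      have hn := Pool.Agent.Helper62.HP.normsq3 x
      rw [hx, a1, a2, a4] at hn
      norm_num at hn
    · exact key _ h'
  · exact key _ h

/-- the polynomial identity between the principal coefficients. -/
lemma sum_sq {ca sa cb sb : ℝ} (ha : ca ^ 2 + sa ^ 2 = 1) (hb : cb ^ 2 + sb ^ 2 = 1) :
    (ca * cb) ^ 2 + (sa * sb) ^ 2 + (ca * sb) ^ 2 + (sa * cb) ^ 2 = 1 := by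
  have : (ca * cb) ^ 2 + (sa * sb) ^ 2 + (ca * sb) ^ 2 + (sa * cb) ^ 2
      = (ca ^ 2 + sa ^ 2) * (cb ^ 2 + sb ^ 2) := by ring
  rw [this, ha, hb, one_mul]

lemma norm_low {κ ε T δ B : ℝ} {x U : E3} (hδB : δ ^ 2 * B ≤ 1/100)
    (hS : ∀ a b, |Sb κ ε T x a b| ≤ B * ‖a‖ * ‖b‖) (hUU : Mh κ ε T δ x U U = 1) :
    1/2 ≤ ‖U‖ ^ 2 := by
  have h := Pool.Agent.Helper62.HP.Mh_bd hδB hS U U
  rw [hUU, abs_one] at h
  nlinarith

/-- bounds on the coefficients of the main terms. -/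
lemma coef_bd {κ ε T B : ℝ} {x X V : E3} (h : Bd κ ε T B x X) (hV : ‖V‖ ≤ 101/100) :
    |⟪V, dom κ ε x X⟫| ≤ 1000 * B ^ 3 ∧
    |(1/2) * S2 κ ε T x X V V + (1/4) * ⟪V, om κ ε x⟫ ^ 2| ≤ 1000 * B ^ 3 := by
  have hB := h.one
  have hB0 : 0 ≤ B := by linarith
  have hV0 := norm_nonneg V
  have hB3 : B ≤ B ^ 3 := by nlinarith [mul_nonneg hB0 hB0]
  have hB2 : B ^ 2 ≤ B ^ 3 := by nlinarith [mul_nonneg hB0 hB0]
  constructor
  · calc |⟪V, dom κ ε x X⟫| ≤ ‖V‖ * ‖dom κ ε x X‖ := abs_real_inner_le_norm _ _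
      _ ≤ 101/100 * B := by gcongr; exact h.dom
      _ ≤ 1000 * B ^ 3 := by linarith
  · have h1 : |(1/2) * S2 κ ε T x X V V| ≤ B := by
      rw [abs_mul, abs_of_pos (by norm_num : (0:ℝ) < 1/2)]
      calc (1/2) * |S2 κ ε T x X V V| ≤ (1/2) * (B * ‖V‖ * ‖V‖) := by gcongr; exact h.S2 V V
        _ ≤ (1/2) * (B * (101/100) * (101/100)) := by gcongr
        _ ≤ B := by linarith
    have h2 : |⟪V, om κ ε x⟫| ≤ 101/100 * B := by
      calc |⟪V, om κ ε x⟫| ≤ ‖V‖ * ‖om κ ε x‖ := abs_real_inner_le_norm _ _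
        _ ≤ 101/100 * B := by gcongr; exact h.om
    have h3 : ⟪V, om κ ε x⟫ ^ 2 ≤ (101/100 * B) ^ 2 := by
      rw [← sq_abs]; gcongr
    have h4 : |(1/4) * ⟪V, om κ ε x⟫ ^ 2| ≤ B ^ 2 := by
      rw [abs_of_nonneg (by positivity)]
      nlinarith
    calc _ ≤ |(1/2) * S2 κ ε T x X V V| + |(1/4) * ⟪V, om κ ε x⟫ ^ 2| := abs_add_le _ _
      _ ≤ B + B ^ 2 := by gcongr
      _ ≤ 1000 * B ^ 3 := by nlinarith [mul_nonneg hB0 (mul_nonneg hB0 hB0)]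

/-- assembly, given the exact curvature formula (Q6a), the limit inequality (T4) and the fact that
the total metric is a metric (F1). -/
theorem main3_of
    (Q6a : ∀ {κ ε T δ : ℝ}, |κ| ≤ 1/10 → 0 < δ →
      (∀ y : E3, ‖y‖ = 1 → ∀ a, a ≠ 0 → 0 < Mf κ ε T δ y a a) →
      ∀ {x X : E3}, ‖x‖ = 1 → ‖X‖ = 1 → ⟪x, X⟫ = 0 → ∀ (U V : E3) (ca sa cb sb : ℝ),
      ∃ t tu tv : E3,
        (∀ e, Mh κ ε T δ x t e = - (1/2) * (δ ^ 2 * (ca * sb * S1 κ ε T x X V e + sa * cb * S1 κ ε T x (cr x X) U e)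
          + δ * (sa * sb) * (Sb κ ε T x V (cr U e) + Sb κ ε T x U (cr V e)))) ∧
        (∀ e, Mh κ ε T δ x tu e = - (δ ^ 2 * (ca * sa) * S1 κ ε T x X U e + δ * sa ^ 2 * Sb κ ε T x U (cr U e))) ∧
        (∀ e, Mh κ ε T δ x tv e = - (δ ^ 2 * (cb * sb) * S1 κ ε T x (cr x X) V e + δ * sb ^ 2 * Sb κ ε T x V (cr V e))) ∧
        num (KK (hE κ) (NE κ ε T δ) (AE κ ε)) (x, 1) (pv κ ε δ x X ca sa U) (pv κ ε δ x (cr x X) cb sb V)
          = F3 κ ε T δ x X U V ca sa cb sb + Mh κ ε T δ x t t - Mh κ ε T δ x tu tv)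
    (F1 : ∀ {κ ε T δ : ℝ}, |κ| ≤ 1/10 →
      (∀ y : E3, ‖y‖ = 1 → ∀ a, a ≠ 0 → 0 < Mf κ ε T δ y a a) →
      ∀ {z : E3 × ℍ[ℝ]}, z.1 ≠ 0 → z.2 ≠ 0 → MetAt (KK (hE κ) (NE κ ε T δ) (AE κ ε)) z)
    (T4 : ∃ κ ε T c : ℝ, 0 < κ ∧ κ ≤ 1/10 ∧ 0 < ε ∧ 0 < T ∧ 0 < c ∧ (∀ x : E3, ‖x‖ = 1 → 1/2 ≤ Kc κ x) ∧
      ∀ x X b : E3, ‖x‖ = 1 → ‖X‖ = 1 → ⟪x, X⟫ = 0 → c * ‖b‖ ^ 2 ≤ Pf κ ε T x X b) :
    ∃ κ ε T δ : ℝ, 0 < κ ∧ κ ≤ 1/10 ∧ 0 < δ ∧
      (∀ y : E3, ‖y‖ = 1 → ∀ a, a ≠ 0 → 0 < Mf κ ε T δ y a a) ∧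
      ∀ x : E3, ‖x‖ = 1 → ∀ u v : E3 × ℍ[ℝ], ⟪x, u.1⟫ = 0 → u.2.re = 0 → ⟪x, v.1⟫ = 0 → v.2.re = 0 →
        LinearIndependent ℝ ![u, v] → 0 < num (KK (hE κ) (NE κ ε T δ) (AE κ ε)) (x, 1) u v := by
  obtain ⟨κ, ε, T, c, hκ0, hκ1, -, -, hc, hK, hP⟩ := T4
  have hκ : |κ| ≤ 1/10 := by rw [abs_of_pos hκ0]; exact hκ1
  obtain ⟨B, hB⟩ := Pool.Agent.Helper59.HP.exists_bd κ ε T hκ
  -- `B ≥ 1`
  have hB1 : 1 ≤ B := by
    have h1 : ‖(!₂[1, 0, 0] : E3)‖ = 1 := by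
      have := Pool.Agent.Helper62.HP.normsq3 (!₂[1, 0, 0] : E3)
      have h0 := norm_nonneg (!₂[1, 0, 0] : E3)
      simp at this
      rcases this with h | h
      · exact h
      · linarith
    obtain ⟨X, hX, hxX⟩ := exists_frame _ h1
    exact (hB _ X h1 hX hxX).one
  have hB0 : 0 < B := by linarith
  set B' : ℝ := 1000 * B ^ 3 with hB'
  have hB'1 : 1 ≤ B' := by
    have : 1 ≤ B ^ 3 := one_le_pow₀ hB1
    linarith
  have hBB' : B ≤ B' := by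
    have : B ≤ B ^ 3 := by nlinarith [mul_nonneg hB0.le hB0.le]
    linarith
  obtain ⟨δ₀, hδ₀, hsd⟩ := Pool.Agent.Helper82.HP.small_delta (B := B') (c := c / 2) hB'1 (by positivity)
  -- the choice of `δ`
  obtain ⟨δ, hδ, hδδ₀, hδ1, hδB⟩ : ∃ δ : ℝ, 0 < δ ∧ δ ≤ δ₀ ∧ δ ≤ 1 ∧ δ ^ 2 * B ≤ 1/100 := by
    refine ⟨min δ₀ (min 1 (1 / (100 * B))), by positivity, min_le_left _ _,
      (min_le_right _ _).trans (min_le_left _ _), ?_⟩
    set δ := min δ₀ (min 1 (1 / (100 * B))) with hd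
    have h0 : 0 < δ := by positivity
    have h1 : δ ≤ 1 := (min_le_right _ _).trans (min_le_left _ _)
    have h2 : δ ≤ 1 / (100 * B) := (min_le_right _ _).trans (min_le_right _ _)
    calc δ ^ 2 * B = δ * (δ * B) := by ring
      _ ≤ 1 * (1 / (100 * B) * B) := by gcongr
      _ = 1/100 := by field_simp
  have hM : ∀ y : E3, ‖y‖ = 1 → ∀ a, a ≠ 0 → 0 < Mf κ ε T δ y a a := by
    intro y hy a ha
    obtain ⟨Y, hY, hyY⟩ := exists_frame y hy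
    have h1 := Pool.Agent.Helper62.HP.Mh_low (a := a) hδB (hB y Y hy hY hyY).S
    have h2 : Mf κ ε T δ y a a = δ ^ 2 * Mh κ ε T δ y a a := by
      simp [Mf, Mh, inL_apply]; ring
    rw [h2]
    have h3 : 0 < ‖a‖ := norm_pos_iff.mpr ha
    have h4 : 0 < Mh κ ε T δ y a a := lt_of_lt_of_le (by positivity) h1
    positivity
  refine ⟨κ, ε, T, δ, hκ0, hκ1, hδ, hM, ?_⟩
  intro x hx u v hu hu' hv hv' huv
  obtain ⟨X, U, V, ca, sa, cb, sb, a, b, c', d, hX, hxX, hca, hcb, hUU, hVV, hUV, hdet, hue, hve⟩ :=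
    Pool.Agent.Helper41.HP.principal hκ hδ hx hM hu hu' hv hv' huv
  have hx0 : x ≠ 0 := by rintro rfl; simp at hx
  have hmet : MetAt (KK (hE κ) (NE κ ε T δ) (AE κ ε)) ((x, 1) : E3 × ℍ[ℝ]) :=
    F1 hκ hM (z := ((x, 1) : E3 × ℍ[ℝ])) hx0 one_ne_zero
  rw [hue, hve, Pool.Agent.Helper93.HP.num_comb hmet]
  refine mul_pos (by positivity) ?_
  obtain ⟨t, tu, tv, -, htu, htv, hnum⟩ := Q6a hκ hδ hM hx hX hxX U V ca sa cb sb
  rw [hnum]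
  have hn1 := norm_cr hx hX hxX
  have hn2 := inner_cr_left x X
  have b1 := hB x X hx hX hxX
  have b2 := hB x (cr x X) hx hn1 hn2
  have b3 := hB x _ hx (diag_frame hx hX hxX).1 (diag_frame hx hX hxX).2
  have ht : 0 ≤ Mh κ ε T δ x t t := by
    have h1 := Pool.Agent.Helper62.HP.Mh_low (a := t) hδB b1.S
    exact le_trans (by positivity) h1
  refine lt_of_lt_of_le ?_ (Pool.Agent.Helper62.HP.num3_lower hδ hδB hδ1 hx hX hxX b1 b2 b3 hUU hVV hUV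
    hca hcb ht htu htv)
  have hU := Pool.Agent.Helper62.HP.norm_of_Mh hδB b1.S hUU
  have hV := Pool.Agent.Helper62.HP.norm_of_Mh hδB b1.S hVV
  have c1 := coef_bd b1 hV
  have c2 := coef_bd b2 hU
  have p1 : c / 2 ≤ Pf κ ε T x X V := by
    have := hP x X V hx hX hxX
    have h2 := norm_low hδB b1.S hVV
    nlinarith
  have p2 : c / 2 ≤ Pf κ ε T x (cr x X) U := by
    have := hP x (cr x X) U hx hn1 hn2
    have h2 := norm_low hδB b1.S hUU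
    nlinarith
  have key := hsd δ hδ hδδ₀ (Kc κ x) (-⟪V, dom κ ε x X⟫) (⟪U, dom κ ε x (cr x X)⟫)
    ((1/2) * S2 κ ε T x X V V + (1/4) * ⟪V, om κ ε x⟫ ^ 2)
    ((1/2) * S2 κ ε T x (cr x X) U U + (1/4) * ⟪U, om κ ε x⟫ ^ 2)
    (ca * cb) (sa * sb) (ca * sb) (sa * cb)
    (b1.K.trans hBB') (by rw [abs_neg]; exact c1.1) c2.1 c1.2 c2.2 (hK x hx)
    (by unfold Pf at p1; linarith) (by unfold Pf at p2; linarith) (by ring) (sum_sq hca hcb)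
  refine lt_of_lt_of_eq key ?_
  unfold Mt
  rw [hB']
  ring

end Pool.Agent.Helper51.HP
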