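import Pool.Agent.Helper20.HP.KKDefs
import Pool.Agent.Helper51.HP.P3a

/-! # HOPF-P3b: the Kaluza-Klein formula, by a gauge transformation -/

set_option autoImplicit false

open Filter Metric Module Set
open scoped Topology ContDiff RealInnerProductSpace Manifold

namespace Pool.Agent.Helper51.HP.P3b
open Pool.Agent.Helper20.PC Pool.Agent.Helper20.HP

/-! ### General calculus -/

theorem contDiffAt_clm {D E F : Type*} [NormedAddCommGroup D] [NormedSpace ℝ D]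
    [NormedAddCommGroup E] [NormedSpace ℝ E] [FiniteDimensional ℝ E]
    [NormedAddCommGroup F] [NormedSpace ℝ F] {n : WithTop ℕ∞} {f : D → E →L[ℝ] F} {x : D}
    (h : ∀ y, ContDiffAt ℝ n (fun x => f x y) x) : ContDiffAt ℝ n f x := by
  let d := finrank ℝ E
  have hd : d = finrank ℝ (Fin d → ℝ) := (finrank_fin_fun ℝ).symm
  let e₁ := ContinuousLinearEquiv.ofFinrankEq hd
  let e₂ := (e₁.arrowCongr (1 : F ≃L[ℝ] F)).trans (ContinuousLinearEquiv.piRing (Fin d))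
  have e : f = e₂.symm ∘ (fun x => e₂ (f x)) := by
    funext x
    simp
  rw [e]
  exact e₂.symm.contDiff.contDiffAt.comp x (contDiffAt_pi.mpr fun i => h _)

section
variable {B W : Type*} [NormedAddCommGroup B] [NormedSpace ℝ B] [NormedAddCommGroup W]
  [NormedSpace ℝ W]
variable {N : B → W →L[ℝ] W →L[ℝ] ℝ} {x : B}

theorem dN_eq (hN : DifferentiableAt ℝ N x) (ζ : B) (a b : W) :
    dN N x ζ a b = fderiv ℝ N x ζ a b := by
  have := ((hN.hasFDerivAt.clm_apply (hasFDerivAt_const a x)).clm_apply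
    (hasFDerivAt_const b x)).fderiv
  rw [dN, this]
  simp

theorem differentiableAt_fderiv_apply {W' : Type*} [NormedAddCommGroup W'] [NormedSpace ℝ W']
    {f : B → W'} (hf : ContDiffAt ℝ 2 f x) (ζ : B) :
    DifferentiableAt ℝ (fun x' => fderiv ℝ f x' ζ) x :=
  ((hf.fderiv_right (m := 1) (by norm_num)).differentiableAt (by norm_num)).clm_apply
    (differentiableAt_const ζ)

theorem ddN_eq (hN : ContDiffAt ℝ 2 N x) (ξ ζ : B) (a b : W) :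
    ddN N x ξ ζ a b = fderiv ℝ (fun x' => fderiv ℝ N x' ζ) x ξ a b := by
  have h1 : (fun x' => dN N x' ζ a b) =ᶠ[𝓝 x] fun x' => fderiv ℝ N x' ζ a b := by
    filter_upwards [hN.eventually (by norm_num)] with x' hx'
    exact dN_eq (hx'.differentiableAt (by norm_num)) ζ a b
  have h3 := (((differentiableAt_fderiv_apply hN ζ).hasFDerivAt.clm_apply
    (hasFDerivAt_const a x)).clm_apply (hasFDerivAt_const b x)).fderiv
  rw [ddN, h1.fderiv_eq, h3]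
  simp

theorem fderiv_tri {N : B → W →L[ℝ] W →L[ℝ] ℝ} {P Q : B → W} (hN : DifferentiableAt ℝ N x)
    (hP : DifferentiableAt ℝ P x) (hQ : DifferentiableAt ℝ Q x) (ζ : B) :
    fderiv ℝ (fun x' => N x' (P x') (Q x')) x ζ = fderiv ℝ N x ζ (P x) (Q x)
      + N x (fderiv ℝ P x ζ) (Q x) + N x (P x) (fderiv ℝ Q x ζ) := by
  have := ((hN.hasFDerivAt.clm_apply hP.hasFDerivAt).clm_apply hQ.hasFDerivAt).fderiv
  rw [this]
  simp
  ring

theorem fderiv2_tri {P Q : B → W} (hN : ContDiffAt ℝ 2 N x) (hP : ContDiffAt ℝ 2 P x)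
    (hQ : ContDiffAt ℝ 2 Q x) (ξ ζ : B) :
    fderiv ℝ (fun x' => fderiv ℝ (fun x'' => N x'' (P x'') (Q x'')) x' ζ) x ξ =
      ddN N x ξ ζ (P x) (Q x) + dN N x ζ (fderiv ℝ P x ξ) (Q x) + dN N x ζ (P x) (fderiv ℝ Q x ξ)
      + dN N x ξ (fderiv ℝ P x ζ) (Q x) + dN N x ξ (P x) (fderiv ℝ Q x ζ)
      + N x (fderiv ℝ P x ζ) (fderiv ℝ Q x ξ) + N x (fderiv ℝ P x ξ) (fderiv ℝ Q x ζ)
      + N x (fderiv ℝ (fun x' => fderiv ℝ P x' ζ) x ξ) (Q x)
      + N x (P x) (fderiv ℝ (fun x' => fderiv ℝ Q x' ζ) x ξ) := by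
  have h1 : (fun x' => fderiv ℝ (fun x'' => N x'' (P x'') (Q x'')) x' ζ) =ᶠ[𝓝 x]
      fun x' => (fderiv ℝ N x' ζ) (P x') (Q x') + N x' (fderiv ℝ P x' ζ) (Q x')
        + N x' (P x') (fderiv ℝ Q x' ζ) := by
    filter_upwards [hN.eventually (by norm_num), hP.eventually (by norm_num),
      hQ.eventually (by norm_num)] with x' h1 h2 h3
    exact fderiv_tri (h1.differentiableAt (by norm_num)) (h2.differentiableAt (by norm_num))
      (h3.differentiableAt (by norm_num)) ζ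
  have dN0 : DifferentiableAt ℝ N x := hN.differentiableAt (by norm_num)
  have dP0 : DifferentiableAt ℝ P x := hP.differentiableAt (by norm_num)
  have dQ0 : DifferentiableAt ℝ Q x := hQ.differentiableAt (by norm_num)
  have dN1 := differentiableAt_fderiv_apply hN ζ
  have dP1 := differentiableAt_fderiv_apply hP ζ
  have dQ1 := differentiableAt_fderiv_apply hQ ζ
  have t1 : DifferentiableAt ℝ (fun x' => (fderiv ℝ N x' ζ) (P x') (Q x')) x :=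
    (dN1.clm_apply dP0).clm_apply dQ0
  have t2 : DifferentiableAt ℝ (fun x' => N x' (fderiv ℝ P x' ζ) (Q x')) x :=
    (dN0.clm_apply dP1).clm_apply dQ0
  have t3 : DifferentiableAt ℝ (fun x' => N x' (P x') (fderiv ℝ Q x' ζ)) x :=
    (dN0.clm_apply dP0).clm_apply dQ1
  have hs : fderiv ℝ (fun x' => (fderiv ℝ N x' ζ) (P x') (Q x') + N x' (fderiv ℝ P x' ζ) (Q x')
        + N x' (P x') (fderiv ℝ Q x' ζ)) x ξ =
      fderiv ℝ (fun x' => (fderiv ℝ N x' ζ) (P x') (Q x')) x ξ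
      + fderiv ℝ (fun x' => N x' (fderiv ℝ P x' ζ) (Q x')) x ξ
      + fderiv ℝ (fun x' => N x' (P x') (fderiv ℝ Q x' ζ)) x ξ := by
    have := ((t1.hasFDerivAt.add t2.hasFDerivAt).add t3.hasFDerivAt).fderiv
    have e : (fun x' => (fderiv ℝ N x' ζ) (P x') (Q x') + N x' (fderiv ℝ P x' ζ) (Q x')
        + N x' (P x') (fderiv ℝ Q x' ζ)) = ((fun x' => (fderiv ℝ N x' ζ) (P x') (Q x'))
        + (fun x' => N x' (fderiv ℝ P x' ζ) (Q x'))) + fun x' => N x' (P x') (fderiv ℝ Q x' ζ) :=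
      rfl
    rw [e, this]
    rfl
  rw [h1.fderiv_eq, hs, fderiv_tri dN1 dP0 dQ0, fderiv_tri dN0 dP1 dQ0, fderiv_tri dN0 dP0 dQ1,
    ddN_eq hN, dN_eq dN0, dN_eq dN0, dN_eq dN0, dN_eq dN0]
  ring

end

/-! ### The gauge transformation -/

section
variable {B 𝔸 : Type*} [NormedAddCommGroup B] [NormedSpace ℝ B] [NormedDivisionRing 𝔸]
  [NormedAlgebra ℝ 𝔸]

/-- second derivative of the gauge transformation. -/
noncomputable def m2 (A : B → B →L[ℝ] 𝔸) (x : B) : B →L[ℝ] B →L[ℝ] 𝔸 :=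
  (1 / 2 : ℝ) • (((ContinuousLinearMap.mul ℝ 𝔸).bilinearComp (A x) (A x) - fderiv ℝ A x)
    + ((ContinuousLinearMap.mul ℝ 𝔸).bilinearComp (A x) (A x) - fderiv ℝ A x).flip)

theorem m2_apply (A : B → B →L[ℝ] 𝔸) (x ζ ζ' : B) : m2 A x ζ ζ' =
    (1 / 2 : ℝ) • ((A x ζ * A x ζ' - fderiv ℝ A x ζ ζ') + (A x ζ' * A x ζ - fderiv ℝ A x ζ' ζ)) := by
  simp [m2]

theorem m2_symm (A : B → B →L[ℝ] 𝔸) (x ζ ζ' : B) : m2 A x ζ ζ' = m2 A x ζ' ζ := by
  rw [m2_apply, m2_apply, add_comm]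

/-- the gauge transformation. -/
noncomputable def kf (A : B → B →L[ℝ] 𝔸) (x x' : B) : 𝔸 :=
  1 - A x (x' - x) + (1 / 2 : ℝ) • m2 A x (x' - x) (x' - x)

/-- its derivative. -/
noncomputable def dkf (A : B → B →L[ℝ] 𝔸) (x x' : B) : B →L[ℝ] 𝔸 := - A x + m2 A x (x' - x)

theorem kf_self (A : B → B →L[ℝ] 𝔸) (x : B) : kf A x x = 1 := by simp [kf]

theorem dkf_self (A : B → B →L[ℝ] 𝔸) (x ζ : B) : dkf A x x ζ = - A x ζ := by simp [dkf]

theorem hasFDerivAt_kf (A : B → B →L[ℝ] 𝔸) (x x' : B) :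
    HasFDerivAt (kf A x) (dkf A x x') x' := by
  have h0 : HasFDerivAt (fun x' : B => x' - x) (ContinuousLinearMap.id ℝ B) x' :=
    (hasFDerivAt_id x').sub_const x
  have h1 : HasFDerivAt (fun x' : B => A x (x' - x)) ((A x).comp (ContinuousLinearMap.id ℝ B)) x' :=
    (A x).hasFDerivAt.comp x' h0
  have h2 := (((m2 A x).hasFDerivAt.comp x' h0).clm_apply h0).const_smul (1 / 2 : ℝ)
  have h3 := ((hasFDerivAt_const (1 : 𝔸) x').sub h1).add h2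
  refine h3.congr_fderiv ?_
  ext ζ
  simp [dkf]
  rw [m2_symm A x ζ x', m2_symm A x ζ x, ← add_smul]
  norm_num

theorem hasFDerivAt_dkf (A : B → B →L[ℝ] 𝔸) (x x' : B) :
    HasFDerivAt (dkf A x) (m2 A x) x' := by
  have h0 : HasFDerivAt (fun x' : B => x' - x) (ContinuousLinearMap.id ℝ B) x' :=
    (hasFDerivAt_id x').sub_const x
  have h3 := (hasFDerivAt_const (- A x) x').add ((m2 A x).hasFDerivAt.comp x' h0)
  refine h3.congr_fderiv ?_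
  ext ζ ζ'
  simp

theorem contDiff_kf (A : B → B →L[ℝ] 𝔸) (x : B) {n : WithTop ℕ∞} : ContDiff ℝ n (kf A x) := by
  have h0 : ContDiff ℝ n (fun x' : B => x' - x) := contDiff_id.sub contDiff_const
  exact (contDiff_const.sub ((A x).contDiff.comp h0)).add
    ((((m2 A x).contDiff.comp h0).clm_apply h0).const_smul (1 / 2 : ℝ))

theorem contDiff_dkf (A : B → B →L[ℝ] 𝔸) (x : B) {n : WithTop ℕ∞} : ContDiff ℝ n (dkf A x) := by
  have h0 : ContDiff ℝ n (fun x' : B => x' - x) := contDiff_id.sub contDiff_const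
  exact contDiff_const.add ((m2 A x).contDiff.comp h0)

theorem contDiffAt_kf_inv (A : B → B →L[ℝ] 𝔸) {x x' : B} (h : kf A x x' ≠ 0) {n : WithTop ℕ∞} :
    ContDiffAt ℝ n (fun x' => (kf A x x')⁻¹) x' := by
  have h1 : ContDiffAt ℝ n (Inv.inv : 𝔸 → 𝔸) (kf A x x') := by
    simpa only [Ring.inverse_eq_inv'] using! contDiffAt_ringInverse ℝ (Units.mk0 _ h)
  exact h1.comp x' (contDiff_kf A x).contDiffAt

theorem eventually_kf_ne (A : B → B →L[ℝ] 𝔸) (x : B) : ∀ᶠ x' in 𝓝 x, kf A x x' ≠ 0 := by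
  have h1 : ContinuousAt (kf A x) x := (contDiff_kf A x (n := 0)).continuous.continuousAt
  refine h1.eventually_ne ?_
  rw [kf_self]
  exact one_ne_zero

theorem hasFDerivAt_kf_inv (A : B → B →L[ℝ] 𝔸) {x x' : B} (h : kf A x x' ≠ 0) :
    HasFDerivAt (fun x' => (kf A x x')⁻¹)
      ((-ContinuousLinearMap.mulLeftRight ℝ 𝔸 (kf A x x')⁻¹ (kf A x x')⁻¹).comp (dkf A x x')) x' :=
  (hasFDerivAt_inv' h).comp x' (hasFDerivAt_kf A x x')

/-- the conjugate of `a` by the gauge transformation. -/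
noncomputable def cj (A : B → B →L[ℝ] 𝔸) (x : B) (a : 𝔸) (x' : B) : 𝔸 :=
  kf A x x' * a * (kf A x x')⁻¹

theorem contDiffAt_cj (A : B → B →L[ℝ] 𝔸) {x x' : B} (h : kf A x x' ≠ 0) {n : WithTop ℕ∞}
    (a : 𝔸) : ContDiffAt ℝ n (cj A x a) x' :=
  ((contDiff_kf A x).contDiffAt.mul contDiffAt_const).mul (contDiffAt_kf_inv A h)

theorem fderiv_cj (A : B → B →L[ℝ] 𝔸) {x x' : B} (h : kf A x x' ≠ 0) (a : 𝔸) (ζ : B) :
    fderiv ℝ (cj A x a) x' ζ = dkf A x x' ζ * a * (kf A x x')⁻¹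
      - kf A x x' * a * ((kf A x x')⁻¹ * dkf A x x' ζ * (kf A x x')⁻¹) := by
  have h1 := (((hasFDerivAt_kf A x x').mul' (hasFDerivAt_const a x')).mul'
    (hasFDerivAt_kf_inv A h)).fderiv
  have e : cj A x a = fun x' => kf A x x' * a * (kf A x x')⁻¹ := rfl
  rw [e]
  erw [h1]
  simp
  abel

theorem fderiv_cj_self (A : B → B →L[ℝ] 𝔸) (x : B) (a : 𝔸) (ζ : B) :
    fderiv ℝ (cj A x a) x ζ = - br (A x ζ) a := by
  rw [fderiv_cj A (by rw [kf_self]; exact one_ne_zero), kf_self, dkf_self, br]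
  simp
  abel

theorem cj_self (A : B → B →L[ℝ] 𝔸) (x : B) (a : 𝔸) : cj A x a x = a := by simp [cj, kf_self]

theorem fderiv2_cj (A : B → B →L[ℝ] 𝔸) (x : B) (a : 𝔸) (ξ ζ : B) :
    fderiv ℝ (fun x' => fderiv ℝ (cj A x a) x' ζ) x ξ = s2 A x ξ ζ a := by
  have hk : kf A x x ≠ 0 := by rw [kf_self]; exact one_ne_zero
  have h1 : (fun x' => fderiv ℝ (cj A x a) x' ζ) =ᶠ[𝓝 x] fun x' =>
      dkf A x x' ζ * a * (kf A x x')⁻¹
      - kf A x x' * a * ((kf A x x')⁻¹ * dkf A x x' ζ * (kf A x x')⁻¹) := by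
    filter_upwards [eventually_kf_ne A x] with x' hx'
    exact fderiv_cj A hx' a ζ
  have d0 := hasFDerivAt_kf A x x
  have d1 : HasFDerivAt (fun x' => dkf A x x' ζ) ((m2 A x).flip ζ) x := by
    refine ((hasFDerivAt_dkf A x x).clm_apply (hasFDerivAt_const ζ x)).congr_fderiv ?_
    ext ξ
    simp
  have d2 := hasFDerivAt_kf_inv A hk
  have h2 := (((d1.mul' (hasFDerivAt_const a x)).mul' d2).sub
    ((d0.mul' (hasFDerivAt_const a x)).mul' ((d2.mul' d1).mul' d2))).fderiv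
  rw [h1.fderiv_eq]
  erw [h2]
  simp only [kf_self, inv_one]
  simp [kf_self, dkf_self, s2, br, m2_apply]
  simp only [mul_add, add_mul, mul_sub, sub_mul, mul_smul_comm, mul_assoc]
  module

/-- the conjugation as a linear map. -/
noncomputable def cjL (A : B → B →L[ℝ] 𝔸) (x x' : B) : 𝔸 →L[ℝ] 𝔸 :=
  ((ContinuousLinearMap.mul ℝ 𝔸).flip (kf A x x')⁻¹).comp (ContinuousLinearMap.mul ℝ 𝔸 (kf A x x'))

theorem cjL_apply (A : B → B →L[ℝ] 𝔸) (x x' : B) (a : 𝔸) : cjL A x x' a = cj A x a x' := by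
  simp [cjL, cj]

/-- the transformed fibre metric. -/
noncomputable def Nk (N : B → 𝔸 →L[ℝ] 𝔸 →L[ℝ] ℝ) (A : B → B →L[ℝ] 𝔸) (x x' : B) :
    𝔸 →L[ℝ] 𝔸 →L[ℝ] ℝ := (N x').bilinearComp (cjL A x x') (cjL A x x')

theorem Nk_apply (N : B → 𝔸 →L[ℝ] 𝔸 →L[ℝ] ℝ) (A : B → B →L[ℝ] 𝔸) (x x' : B) (a b : 𝔸) :
    Nk N A x x' a b = N x' (cj A x a x') (cj A x b x') := by
  simp [Nk, cjL_apply]

theorem Nk_self (N : B → 𝔸 →L[ℝ] 𝔸 →L[ℝ] ℝ) (A : B → B →L[ℝ] 𝔸) (x : B) : Nk N A x x = N x := by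
  ext a b
  rw [Nk_apply, cj_self, cj_self]

theorem contDiffAt_cj_self (A : B → B →L[ℝ] 𝔸) {x : B} {n : WithTop ℕ∞}
    (a : 𝔸) : ContDiffAt ℝ n (cj A x a) x :=
  contDiffAt_cj A (by rw [kf_self]; exact one_ne_zero) a

theorem dN_Nk {N : B → 𝔸 →L[ℝ] 𝔸 →L[ℝ] ℝ} (A : B → B →L[ℝ] 𝔸) {x : B}
    (hN : ContDiffAt ℝ 2 N x) (ζ : B) (a b : 𝔸) : dN (Nk N A x) x ζ a b = cN1 N A x ζ a b := by
  have e : (fun x' => Nk N A x x' a b) = fun x' => N x' (cj A x a x') (cj A x b x') := by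
    funext x'
    exact Nk_apply N A x x' a b
  have d0 : DifferentiableAt ℝ N x := hN.differentiableAt (by norm_num)
  rw [dN, e, fderiv_tri d0 ((contDiffAt_cj_self A (n := 2) a).differentiableAt (by norm_num))
    ((contDiffAt_cj_self A (n := 2) b).differentiableAt (by norm_num)), fderiv_cj_self,
    fderiv_cj_self, cj_self, cj_self, cN1, dN_eq d0]
  simp
  ring

theorem ddN_Nk {N : B → 𝔸 →L[ℝ] 𝔸 →L[ℝ] ℝ} (A : B → B →L[ℝ] 𝔸) {x : B}
    (hN : ContDiffAt ℝ 2 N x) (ζ ζ' : B) (a b : 𝔸) : ddN (Nk N A x) x ζ ζ' a b =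
    ddN N x ζ ζ' a b - dN N x ζ (br (A x ζ') a) b - dN N x ζ a (br (A x ζ') b)
    - dN N x ζ' (br (A x ζ) a) b - dN N x ζ' a (br (A x ζ) b)
    + N x (br (A x ζ) a) (br (A x ζ') b) + N x (br (A x ζ') a) (br (A x ζ) b)
    + N x (s2 A x ζ ζ' a) b + N x a (s2 A x ζ ζ' b) := by
  have e : (fun x' => Nk N A x x' a b) = fun x' => N x' (cj A x a x') (cj A x b x') := by
    funext x'
    exact Nk_apply N A x x' a b
  have d0 : DifferentiableAt ℝ N x := hN.differentiableAt (by norm_num)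
  have h := fderiv2_tri hN (contDiffAt_cj_self A (n := 2) a) (contDiffAt_cj_self A (n := 2) b) ζ ζ'
  rw [ddN]
  simp only [dN, e]
  rw [h, fderiv2_cj, fderiv2_cj, fderiv_cj_self, fderiv_cj_self, fderiv_cj_self, fderiv_cj_self,
    cj_self, cj_self]
  simp only [dN_eq d0, map_neg, _root_.neg_apply, neg_neg]
  change _ = _ - fderiv ℝ (fun x' => N x' _ _) x ζ - fderiv ℝ (fun x' => N x' _ _) x ζ
    - fderiv ℝ (fun x' => N x' _ _) x ζ' - fderiv ℝ (fun x' => N x' _ _) x ζ' + _ + _ + _ + _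
  simp only [← dN.eq_1, dN_eq d0]
  ring

/-! ### The transformed connection -/

/-- the transformed connection. -/
noncomputable def Ak (A : B → B →L[ℝ] 𝔸) (x x' : B) : B →L[ℝ] 𝔸 :=
  (ContinuousLinearMap.mul ℝ 𝔸 (kf A x x')⁻¹).comp (dkf A x x')
    + ((ContinuousLinearMap.mul ℝ 𝔸 (kf A x x')⁻¹).comp
      ((ContinuousLinearMap.mul ℝ 𝔸).flip (kf A x x'))).comp (A x')

theorem Ak_apply (A : B → B →L[ℝ] 𝔸) (x x' ζ : B) : Ak A x x' ζ =
    (kf A x x')⁻¹ * dkf A x x' ζ + (kf A x x')⁻¹ * (A x' ζ * kf A x x') := by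
  simp [Ak]

theorem Ak_self (A : B → B →L[ℝ] 𝔸) (x : B) : Ak A x x = 0 := by
  ext ζ
  rw [Ak_apply, kf_self, dkf_self]
  simp

theorem contDiffAt_Ak [FiniteDimensional ℝ B] {A : B → B →L[ℝ] 𝔸} {x x' : B}
    (hA : ContDiffAt ℝ 2 A x') (h : kf A x x' ≠ 0) : ContDiffAt ℝ 2 (Ak A x) x' := by
  refine contDiffAt_clm fun ζ => ?_
  have e : (fun x' => Ak A x x' ζ) = fun x' =>
      (kf A x x')⁻¹ * dkf A x x' ζ + (kf A x x')⁻¹ * (A x' ζ * kf A x x') := by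
    funext x'
    exact Ak_apply A x x' ζ
  rw [e]
  exact ((contDiffAt_kf_inv A h).mul ((contDiff_dkf A x).contDiffAt.clm_apply contDiffAt_const)).add
    ((contDiffAt_kf_inv A h).mul ((hA.clm_apply contDiffAt_const).mul (contDiff_kf A x).contDiffAt))

theorem fderiv_Ak [FiniteDimensional ℝ B] {A : B → B →L[ℝ] 𝔸} {x x' : B}
    (hA : ContDiffAt ℝ 2 A x') (h : kf A x x' ≠ 0) (ξ ζ : B) :
    fderiv ℝ (Ak A x) x' ξ ζ = (kf A x x')⁻¹ * m2 A x ξ ζ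
      - (kf A x x')⁻¹ * dkf A x x' ξ * (kf A x x')⁻¹ * dkf A x x' ζ
      - (kf A x x')⁻¹ * dkf A x x' ξ * (kf A x x')⁻¹ * (A x' ζ * kf A x x')
      + (kf A x x')⁻¹ * (fderiv ℝ A x' ξ ζ * kf A x x' + A x' ζ * dkf A x x' ξ) := by
  have h0 := (((contDiffAt_Ak hA h).differentiableAt (by norm_num)).hasFDerivAt.clm_apply
    (hasFDerivAt_const ζ x')).fderiv
  have h1 : fderiv ℝ (Ak A x) x' ξ ζ = fderiv ℝ (fun x' => Ak A x x' ζ) x' ξ := by
    rw [h0]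
    simp
  have e : (fun x' => Ak A x x' ζ) = fun x' =>
      (kf A x x')⁻¹ * dkf A x x' ζ + (kf A x x')⁻¹ * (A x' ζ * kf A x x') := by
    funext x'
    exact Ak_apply A x x' ζ
  have d1 : HasFDerivAt (fun x' => dkf A x x' ζ) ((m2 A x).flip ζ) x' := by
    refine ((hasFDerivAt_dkf A x x').clm_apply (hasFDerivAt_const ζ x')).congr_fderiv ?_
    ext ξ
    simp
  have d2 := hasFDerivAt_kf_inv A h
  have d3 : HasFDerivAt (fun x' => A x' ζ) ((fderiv ℝ A x').flip ζ) x' := by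
    refine ((hA.differentiableAt (by norm_num)).hasFDerivAt.clm_apply
      (hasFDerivAt_const ζ x')).congr_fderiv ?_
    ext ξ
    simp
  have h2 := ((d2.mul' d1).add (d2.mul' (d3.mul' (hasFDerivAt_kf A x x')))).fderiv
  rw [h1, e]
  erw [h2]
  simp
  noncomm_ring

theorem Om_Ak [FiniteDimensional ℝ B] {A : B → B →L[ℝ] 𝔸} {x x' : B}
    (hA : ContDiffAt ℝ 2 A x') (h : kf A x x' ≠ 0) (ξ ζ : B) :
    Om (Ak A x) x' ξ ζ = (kf A x x')⁻¹ * Om A x' ξ ζ * kf A x x' := by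
  have hm : ∀ c : 𝔸, kf A x x' * ((kf A x x')⁻¹ * c) = c := fun c => mul_inv_cancel_left₀ h c
  rw [Om, fderiv_Ak hA h, fderiv_Ak hA h, Ak_apply, Ak_apply, m2_symm A x ζ ξ, Om, br, br]
  simp only [mul_add, add_mul, mul_sub, sub_mul, mul_assoc, hm]
  abel

theorem Om_Ak_self [FiniteDimensional ℝ B] {A : B → B →L[ℝ] 𝔸} {x : B}
    (hA : ContDiffAt ℝ 2 A x) (ξ ζ : B) : Om (Ak A x) x ξ ζ = Om A x ξ ζ := by
  rw [Om_Ak hA (by rw [kf_self]; exact one_ne_zero), kf_self]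
  simp

theorem fderiv_Ak_self [FiniteDimensional ℝ B] {A : B → B →L[ℝ] 𝔸} {x : B}
    (hA : ContDiffAt ℝ 2 A x) (ζ : B) : fderiv ℝ (Ak A x) x ζ ζ = 0 := by
  rw [fderiv_Ak hA (by rw [kf_self]; exact one_ne_zero), kf_self, dkf_self, m2_apply]
  simp only [inv_one, one_mul, mul_one]
  rw [← two_smul ℝ, smul_smul]
  norm_num
  abel

theorem differentiableAt_Om [FiniteDimensional ℝ B] {A : B → B →L[ℝ] 𝔸} {x : B}
    (hA : ContDiffAt ℝ 2 A x) (ζ ζ' : B) : DifferentiableAt ℝ (fun x' => Om A x' ζ ζ') x := by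
  have d0 : DifferentiableAt ℝ A x := hA.differentiableAt (by norm_num)
  have d1 : ∀ ζ, DifferentiableAt ℝ (fun x' => A x' ζ) x := fun ζ =>
    d0.clm_apply (differentiableAt_const ζ)
  have d2 : ∀ ζ ζ', DifferentiableAt ℝ (fun x' => fderiv ℝ A x' ζ ζ') x := fun ζ ζ' =>
    (differentiableAt_fderiv_apply hA ζ).clm_apply (differentiableAt_const ζ')
  unfold Om br
  exact ((d2 ζ ζ').sub (d2 ζ' ζ)).add (((d1 ζ).mul (d1 ζ')).sub ((d1 ζ').mul (d1 ζ)))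

theorem DOm_Ak [FiniteDimensional ℝ B] (h : B → B →L[ℝ] B →L[ℝ] ℝ) {A : B → B →L[ℝ] 𝔸} {x : B}
    (hA : ContDiffAt ℝ 2 A x) (ξ ζ ζ' : B) : DOm h (Ak A x) x ξ ζ ζ' = DOm h A x ξ ζ ζ' := by
  have hk : kf A x x ≠ 0 := by rw [kf_self]; exact one_ne_zero
  have h1 : (fun x' => Om (Ak A x) x' ζ ζ') =ᶠ[𝓝 x] fun x' =>
      (kf A x x')⁻¹ * Om A x' ζ ζ' * kf A x x' := by
    filter_upwards [eventually_kf_ne A x, hA.eventually (by norm_num)] with x' hx' hA'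
    exact Om_Ak hA' hx' ζ ζ'
  have h2 := (((hasFDerivAt_kf_inv A hk).mul' (differentiableAt_Om hA ζ ζ').hasFDerivAt).mul'
    (hasFDerivAt_kf A x x)).fderiv
  rw [DOm, DOm, h1.fderiv_eq, Om_Ak_self hA, Om_Ak_self hA, Om_Ak_self hA, Ak_self]
  erw [h2]
  simp [kf_self, dkf_self, br]
  abel

theorem s2_Ak [FiniteDimensional ℝ B] {A : B → B →L[ℝ] 𝔸} {x : B}
    (hA : ContDiffAt ℝ 2 A x) (ζ ζ' : B) (a : 𝔸) : s2 (Ak A x) x ζ ζ' a = 0 := by
  have h1 : fderiv ℝ (Ak A x) x ζ ζ' + fderiv ℝ (Ak A x) x ζ' ζ = 0 := by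
    have := fderiv_Ak_self hA (ζ + ζ')
    simp only [map_add, _root_.add_apply, fderiv_Ak_self hA, zero_add, add_zero] at this
    rw [add_comm]
    exact this
  rw [s2, h1, Ak_self]
  simp [br]

theorem cN1_Ak {N : B → 𝔸 →L[ℝ] 𝔸 →L[ℝ] ℝ} {A : B → B →L[ℝ] 𝔸} {x : B}
    (hN : ContDiffAt ℝ 2 N x) (ζ : B) (a b : 𝔸) :
    cN1 (Nk N A x) (Ak A x) x ζ a b = cN1 N A x ζ a b := by
  rw [cN1, dN_Nk A hN, Ak_self]
  simp [br]

theorem cN2_Ak [FiniteDimensional ℝ B] (h : B → B →L[ℝ] B →L[ℝ] ℝ)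
    {N : B → 𝔸 →L[ℝ] 𝔸 →L[ℝ] ℝ} {A : B → B →L[ℝ] 𝔸} {x : B} (hN : ContDiffAt ℝ 2 N x)
    (hA : ContDiffAt ℝ 2 A x) (ζ ζ' : B) (a b : 𝔸) :
    cN2 h (Nk N A x) (Ak A x) x ζ ζ' a b = cN2 h N A x ζ ζ' a b := by
  rw [cN2, cN1_Ak hN, ddN_Nk A hN, s2_Ak hA, s2_Ak hA, Ak_self, cN2, Nk_self]
  simp [br, dN]

/-! ### The pulled back metric -/

/-- the gauge transformation of the total space. -/
noncomputable def gau (A : B → B →L[ℝ] 𝔸) (x : B) (z : B × 𝔸) : B × 𝔸 := (z.1, kf A x z.1 * z.2)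

/-- its derivative. -/
noncomputable def dgau (A : B → B →L[ℝ] 𝔸) (x : B) (z : B × 𝔸) : B × 𝔸 →L[ℝ] B × 𝔸 :=
  (ContinuousLinearMap.fst ℝ B 𝔸).prod
    ((((ContinuousLinearMap.mul ℝ 𝔸).flip z.2).comp (dkf A x z.1)).comp
      (ContinuousLinearMap.fst ℝ B 𝔸)
      + (ContinuousLinearMap.mul ℝ 𝔸 (kf A x z.1)).comp (ContinuousLinearMap.snd ℝ B 𝔸))

theorem dgau_apply (A : B → B →L[ℝ] 𝔸) (x : B) (z u : B × 𝔸) : dgau A x z u =
    (u.1, dkf A x z.1 u.1 * z.2 + kf A x z.1 * u.2) := by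
  simp [dgau]

theorem contDiff_gau (A : B → B →L[ℝ] 𝔸) (x : B) {n : WithTop ℕ∞} : ContDiff ℝ n (gau A x) :=
  contDiff_fst.prodMk (((contDiff_kf A x).comp contDiff_fst).mul contDiff_snd)

theorem hasFDerivAt_gau (A : B → B →L[ℝ] 𝔸) (x : B) (z : B × 𝔸) :
    HasFDerivAt (gau A x) (dgau A x z) z := by
  have h1 : HasFDerivAt (fun z : B × 𝔸 => kf A x z.1)
      ((dkf A x z.1).comp (ContinuousLinearMap.fst ℝ B 𝔸)) z :=
    (hasFDerivAt_kf A x z.1).comp z hasFDerivAt_fst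
  have h2 : HasFDerivAt (gau A x) _ z := HasFDerivAt.prodMk hasFDerivAt_fst
    (h1.mul' hasFDerivAt_snd)
  refine h2.congr_fderiv ?_
  ext u
  · simp [dgau]
  · simp [dgau]
  · simp [dgau]
  · simp [dgau]

theorem fderiv_gau (A : B → B →L[ℝ] 𝔸) (x : B) (z : B × 𝔸) : fderiv ℝ (gau A x) z = dgau A x z :=
  (hasFDerivAt_gau A x z).fderiv

theorem lam_gau (A : B → B →L[ℝ] 𝔸) (x : B) {z : B × 𝔸} (h : kf A x z.1 ≠ 0) (hz : z.2 ≠ 0)
    (u : B × 𝔸) : lam A (gau A x z) (dgau A x z u) = cj A x (lam (Ak A x) z u) z.1 := by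
  have hm : ∀ c : 𝔸, kf A x z.1 * ((kf A x z.1)⁻¹ * c) = c := fun c => mul_inv_cancel_left₀ h c
  have hm2 : ∀ c : 𝔸, z.2 * (z.2⁻¹ * c) = c := fun c => mul_inv_cancel_left₀ hz c
  rw [dgau_apply]
  simp only [lam, gau, cj, _root_.add_apply, ContinuousLinearMap.comp_apply,
    ContinuousLinearMap.flip_apply, ContinuousLinearMap.mul_apply', ContinuousLinearMap.coe_fst',
    ContinuousLinearMap.coe_snd', Ak_apply, mul_inv_rev]
  simp only [mul_add, add_mul, mul_assoc, hm, hm2, mul_inv_cancel₀ h, mul_one]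
  abel

theorem KK_gau (h : B → B →L[ℝ] B →L[ℝ] ℝ) (N : B → 𝔸 →L[ℝ] 𝔸 →L[ℝ] ℝ) (A : B → B →L[ℝ] 𝔸)
    (x : B) {z : B × 𝔸} (hk : kf A x z.1 ≠ 0) (hz : z.2 ≠ 0) (a b : B × 𝔸) :
    KK h (Nk N A x) (Ak A x) z a b =
      KK h N A (gau A x z) (fderiv ℝ (gau A x) z a) (fderiv ℝ (gau A x) z b) := by
  rw [fderiv_gau]
  simp only [KK, _root_.add_apply, ContinuousLinearMap.bilinearComp_apply, lam_gau A x hk hz,
    Nk_apply, ContinuousLinearMap.coe_fst']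
  rw [dgau_apply, dgau_apply]
  rfl

/-! ### The metric conditions -/

theorem metAt_KK [FiniteDimensional ℝ B] [FiniteDimensional ℝ 𝔸] {h : B → B →L[ℝ] B →L[ℝ] ℝ}
    {N : B → 𝔸 →L[ℝ] 𝔸 →L[ℝ] ℝ} {A : B → B →L[ℝ] 𝔸} {x : B} (hh : MetAt h x) (hN : FormAt N x)
    (hA : ContDiffAt ℝ 2 A x) : MetAt (KK h N A) (x, 1) := by
  have e : ∀ z : B × 𝔸, ∀ a b, KK h N A z a b = h z.1 a.1 b.1
      + N z.1 (a.2 * z.2⁻¹ + A z.1 a.1) (b.2 * z.2⁻¹ + A z.1 b.1) := by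
    intro z a b
    simp [KK, lam]
  have c1 : ContinuousAt (Prod.fst : B × 𝔸 → B) (x, 1) := continuousAt_fst
  have c2 : ∀ᶠ z : B × 𝔸 in 𝓝 (x, 1), z.2 ≠ 0 :=
    (continuousAt_snd : ContinuousAt (Prod.snd : B × 𝔸 → 𝔸) (x, 1)).eventually_ne one_ne_zero
  refine ⟨?_, ?_, ?_⟩
  · refine contDiffAt_clm fun a => contDiffAt_clm fun b => ?_
    have ee : (fun z : B × 𝔸 => KK h N A z a b) = fun z => h z.1 a.1 b.1
      + N z.1 (a.2 * z.2⁻¹ + A z.1 a.1) (b.2 * z.2⁻¹ + A z.1 b.1) := funext fun z => e z a b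
    change ContDiffAt ℝ 2 (fun z : B × 𝔸 => KK h N A z a b) (x, 1)
    rw [ee]
    have i1 : ContDiffAt ℝ 2 (fun z : B × 𝔸 => z.2⁻¹) (x, 1) := by
      have h1 : ContDiffAt ℝ 2 (Inv.inv : 𝔸 → 𝔸) ((x, (1 : 𝔸)) : B × 𝔸).2 := by
        simpa only [Ring.inverse_eq_inv'] using! contDiffAt_ringInverse ℝ
          (Units.mk0 (1 : 𝔸) one_ne_zero)
      exact h1.comp _ contDiffAt_snd
    have i2 : ContDiffAt ℝ 2 (fun z : B × 𝔸 => A z.1) (x, 1) := by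
      have h1 : ContDiffAt ℝ 2 A ((x, (1 : 𝔸)) : B × 𝔸).1 := hA
      exact h1.comp _ contDiffAt_fst
    have i3 : ContDiffAt ℝ 2 (fun z : B × 𝔸 => h z.1) (x, 1) := by
      have h1 : ContDiffAt ℝ 2 h ((x, (1 : 𝔸)) : B × 𝔸).1 := hh.smooth
      exact h1.comp _ contDiffAt_fst
    have i4 : ContDiffAt ℝ 2 (fun z : B × 𝔸 => N z.1) (x, 1) := by
      have h1 : ContDiffAt ℝ 2 N ((x, (1 : 𝔸)) : B × 𝔸).1 := hN.smooth
      exact h1.comp _ contDiffAt_fst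
    have i5 : ∀ a : B × 𝔸, ContDiffAt ℝ 2 (fun z : B × 𝔸 => a.2 * z.2⁻¹ + A z.1 a.1) (x, 1) :=
      fun a => (contDiffAt_const.mul i1).add (i2.clm_apply contDiffAt_const)
    exact ((i3.clm_apply contDiffAt_const).clm_apply contDiffAt_const).add
      ((i4.clm_apply (i5 a)).clm_apply (i5 b))
  · filter_upwards [c1.eventually hh.symm, c1.eventually hN.symm] with z h1 h2 a b
    rw [e, e, h1, h2]
  · filter_upwards [c1.eventually hh.pos, c1.eventually hN.pos, c2] with z h1 h2 h3 a ha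
    rw [e]
    have p2 : ∀ c, 0 ≤ N z.1 c c := by
      intro c
      rcases eq_or_ne c 0 with rfl | hc
      · simp
      · exact (h2 c hc).le
    rcases eq_or_ne a.1 0 with h4 | h4
    · have h5 : a.2 ≠ 0 := by
        intro h5
        exact ha (Prod.ext h4 h5)
      rw [h4]
      simp only [map_zero, add_zero, zero_add]
      exact h2 _ (mul_ne_zero h5 (inv_ne_zero h3))
    · exact add_pos_of_pos_of_nonneg (h1 _ h4) (p2 _)

theorem formAt_Nk [FiniteDimensional ℝ 𝔸] {N : B → 𝔸 →L[ℝ] 𝔸 →L[ℝ] ℝ} {A : B → B →L[ℝ] 𝔸}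
    {x : B} (hN : FormAt N x) : FormAt (Nk N A x) x := by
  refine ⟨?_, ?_, ?_⟩
  · refine contDiffAt_clm fun a => contDiffAt_clm fun b => ?_
    simp only [Nk_apply]
    exact (hN.smooth.clm_apply (contDiffAt_cj_self A a)).clm_apply (contDiffAt_cj_self A b)
  · filter_upwards [hN.symm] with x' h1 a b
    rw [Nk_apply, Nk_apply, h1]
  · filter_upwards [hN.pos, eventually_kf_ne A x] with x' h1 h2 a ha
    rw [Nk_apply]
    exact h1 _ (mul_ne_zero (mul_ne_zero h2 ha) (inv_ne_zero h2))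

end

/-! ### The formula -/

theorem kk_num {B 𝔸 : Type*} [NormedAddCommGroup B] [NormedSpace ℝ B] [FiniteDimensional ℝ B]
    [NormedDivisionRing 𝔸] [NormedAlgebra ℝ 𝔸] [FiniteDimensional ℝ 𝔸]
    {h : B → B →L[ℝ] B →L[ℝ] ℝ} {N : B → 𝔸 →L[ℝ] 𝔸 →L[ℝ] ℝ} {A : B → B →L[ℝ] 𝔸} {x : B}
    (hh : MetAt h x) (hN : FormAt N x) (hA : ContDiffAt ℝ 2 A x)
    (ζ ζ' : B) (η η' : 𝔸) {th thu thv : B} {tv tvu tvv : 𝔸}
    (h1 : IsKH h N A x ζ η ζ' η' th) (h2 : IsKH h N A x ζ η ζ η thu) (h3 : IsKH h N A x ζ' η' ζ' η' thv)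
    (h4 : IsKV N A x ζ η ζ' η' tv) (h5 : IsKV N A x ζ η ζ η tvu) (h6 : IsKV N A x ζ' η' ζ' η' tvv) :
    num (KK h N A) (x, 1) (ζ, η - A x ζ) (ζ', η' - A x ζ')
      = kkRHS h N A x ζ η ζ' η' th thu thv tv tvu tvv := by
  have hk : kf A x x ≠ 0 := by rw [kf_self]; exact one_ne_zero
  have hg : gau A x (x, 1) = (x, 1) := by simp [gau, kf_self]
  have hd : ∀ ζ η, fderiv ℝ (gau A x) (x, 1) (ζ, η) = (ζ, η - A x ζ) := by
    intro ζ η
    rw [fderiv_gau, dgau_apply]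
    simp [kf_self, dkf_self]
    abel
  have hM := metAt_KK hh hN hA
  have hM' := metAt_KK hh (formAt_Nk (A := A) hN) (contDiffAt_Ak hA hk)
  have hev : ∀ᶠ w in 𝓝 ((x, 1) : B × 𝔸), ∀ a b, KK h (Nk N A x) (Ak A x) w a b =
      KK h N A (gau A x w) (fderiv ℝ (gau A x) w a) (fderiv ℝ (gau A x) w b) := by
    have c1 : ContinuousAt (Prod.fst : B × 𝔸 → B) (x, 1) := continuousAt_fst
    have c2 : ∀ᶠ z : B × 𝔸 in 𝓝 (x, 1), z.2 ≠ 0 :=
      (continuousAt_snd : ContinuousAt (Prod.snd : B × 𝔸 → 𝔸) (x, 1)).eventually_ne one_ne_zero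
    filter_upwards [c1.eventually (eventually_kf_ne A x), c2] with w hw1 hw2 a b
    exact KK_gau h N A x hw1 hw2 a b
  have hpull := Pool.Agent.Helper88.HP.num_pullback (G' := KK h N A) (φ := gau A x) (z := (x, 1))
    (contDiff_gau A x).contDiffAt (by rw [hg]; exact hM) hM' (by
      rintro ⟨a, b⟩
      refine ⟨(a, b + A x a), ?_⟩
      rw [hd]
      simp) hev (ζ, η) (ζ', η')
  rw [hg, hd, hd] at hpull
  rw [← hpull]
  have c1 : ∀ ζ a b, cN1 (Nk N A x) (Ak A x) x ζ a b = cN1 N A x ζ a b :=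
    fun ζ a b => cN1_Ak hN.smooth ζ a b
  have kH : ∀ {ζ η ζ' η' t}, IsKH h N A x ζ η ζ' η' t →
      IsKH h (Nk N A x) (Ak A x) x ζ η ζ' η' t := by
    intro ζ η ζ' η' t ht ξ
    rw [ht ξ, c1, Nk_self, Om_Ak_self hA, Om_Ak_self hA]
  have kV : ∀ {ζ η ζ' η' t}, IsKV N A x ζ η ζ' η' t →
      IsKV (Nk N A x) (Ak A x) x ζ η ζ' η' t := by
    intro ζ η ζ' η' t ht ξ
    rw [Nk_self, ht ξ, c1, c1]
  rw [Pool.Agent.Helper51.HP.P3a.kk_num_zero hh (formAt_Nk hN) (contDiffAt_Ak hA hk) (Ak_self A x) (fderiv_Ak_self hA)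
    ζ ζ' η η' (kH h1) (kH h2) (kH h3) (kV h4) (kV h5) (kV h6)]
  unfold kkRHS
  simp only [c1, Nk_self, Om_Ak_self hA, DOm_Ak h hA, cN2_Ak h hN.smooth hA]

end Pool.Agent.Helper51.HP.P3b
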