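import Pool.Agent.Helper51.HP.M1
import Pool.Agent.Helper51.HP.P3b
import Pool.Agent.Helper50.HP.T4
import Pool.Agent.Helper81.HP.F1
import Pool.Agent.Helper76.HP.Q6a
import Pool.Agent.Helper87.HP.Q1
import Pool.Agent.Helper57.HP.Q2
import Pool.Agent.Helper28.HP.Q3
import Pool.Agent.Helper96.HP.Q4
import Pool.Agent.Helper91.HP.Q5ad
import Pool.Agent.Helper39.HP.Q5c
import Pool.Agent.Helper33.HP.T3
import Pool.Agent.Helper64.HP.T2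
import Pool.Agent.Helper67.HP.T1

/-!
# The closed main theorem on the local model
-/

set_option autoImplicit false

open Filter Metric Module Set
open scoped Topology ContDiff RealInnerProductSpace Manifold Quaternion

namespace Pool.Agent.Helper51.HP
open Pool.Agent.Helper20.PC Pool.Agent.Helper20.HP

theorem DOm_AE {κ ε : ℝ} (hκ : |κ| ≤ 1/10) {x X : E3} (hx : ‖x‖ = 1) (hX : ‖X‖ = 1) (hxX : ⟪x, X⟫ = 0) :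
    DOm (hE κ) (AE κ ε) x (jx1 κ x X) (jx1 κ x X) (sg κ x • cr x X) = (1/2 : ℝ) • qimL (dom κ ε x X) :=
  Pool.Agent.Helper28.HP.DOm_AE_of
    (fun hκ _ _ _ hx hu hv => Pool.Agent.Helper87.HP.gam_hE hκ hx hu hv)
    (fun hκ _ hx u v => Pool.Agent.Helper57.HP.Om_AE hκ hx u v) hκ hx hX hxX

theorem AE_jets {κ ε : ℝ} (hκ : |κ| ≤ 1/10) {x X : E3} (hx : ‖x‖ = 1) (hX : ‖X‖ = 1) (hxX : ⟪x, X⟫ = 0) :
    Gam (hE κ) x (jx1 κ x X) (jx1 κ x X) = - jx2 κ x X ∧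
    AE κ ε x (jx1 κ x X) = (1/2 : ℝ) • qimL (jw0 κ ε x X) ∧
    fderiv ℝ (AE κ ε) x (jx1 κ x X) (jx1 κ x X) + AE κ ε x (jx2 κ x X) = (1/2 : ℝ) • qimL (jw1 κ ε x X) :=
  Pool.Agent.Helper96.HP.AE_jets
    (fun _ _ _ hx hu hv => Pool.Agent.Helper87.HP.gam_hE hκ hx hu hv) hκ hx hX hxX

theorem cN_NE {κ ε T δ : ℝ} (hκ : |κ| ≤ 1/10) {x X : E3} (hx : ‖x‖ = 1) (hX : ‖X‖ = 1) (hxX : ⟪x, X⟫ = 0)
    (a b : E3) :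
    cN1 (NE κ ε T δ) (AE κ ε) x (jx1 κ x X) (qimL a) (qimL b) = -4 * δ ^ 4 * S1 κ ε T x X a b ∧
    cN2 (hE κ) (NE κ ε T δ) (AE κ ε) x (jx1 κ x X) (jx1 κ x X) (qimL a) (qimL b)
      = -4 * δ ^ 4 * S2 κ ε T x X a b :=
  Pool.Agent.Helper39.HP.cN_NE (fun hκ _ _ hx hX hxX => AE_jets hκ hx hX hxX) hκ hx hX hxX a b

theorem num3_formula {κ ε T δ : ℝ} (hκ : |κ| ≤ 1/10) (hδ : 0 < δ)
    (hM : ∀ y : E3, ‖y‖ = 1 → ∀ a, a ≠ 0 → 0 < Mf κ ε T δ y a a)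
    {x X : E3} (hx : ‖x‖ = 1) (hX : ‖X‖ = 1) (hxX : ⟪x, X⟫ = 0) (U V : E3) (ca sa cb sb : ℝ) :
    ∃ t tu tv : E3,
      (∀ e, Mh κ ε T δ x t e = - (1/2) * (δ ^ 2 * (ca * sb * S1 κ ε T x X V e + sa * cb * S1 κ ε T x (cr x X) U e)
        + δ * (sa * sb) * (Sb κ ε T x V (cr U e) + Sb κ ε T x U (cr V e)))) ∧
      (∀ e, Mh κ ε T δ x tu e = - (δ ^ 2 * (ca * sa) * S1 κ ε T x X U e + δ * sa ^ 2 * Sb κ ε T x U (cr U e))) ∧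
      (∀ e, Mh κ ε T δ x tv e = - (δ ^ 2 * (cb * sb) * S1 κ ε T x (cr x X) V e + δ * sb ^ 2 * Sb κ ε T x V (cr V e))) ∧
      num (KK (hE κ) (NE κ ε T δ) (AE κ ε)) (x, 1) (pv κ ε δ x X ca sa U) (pv κ ε δ x (cr x X) cb sb V)
        = F3 κ ε T δ x X U V ca sa cb sb + Mh κ ε T δ x t t - Mh κ ε T δ x tu tv := by
  have hx0 : x ≠ 0 := by rintro rfl; simp at hx
  exact Pool.Agent.Helper76.HP.num3_formula_of hκ hδ (hM x hx) hx hX hxX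
    (fun ζ ζ' η η' th thu thv tv tvu tvv h1 h2 h3 h4 h5 h6 =>
      Pool.Agent.Helper51.HP.P3b.kk_num (Pool.Agent.Helper87.HP.metAt_hE hκ hx0)
        (Pool.Agent.Helper91.HP.formAt_NE hM hx0)
        (Pool.Agent.Helper57.HP.contDiffAt_AE hκ hx0) ζ ζ' η η' h1 h2 h3 h4 h5 h6)
    (Pool.Agent.Helper87.HP.metAt_hE hκ hx0) (fun u v hu hv => Pool.Agent.Helper87.HP.num_hE hκ hx hu hv)
    (fun u v => Pool.Agent.Helper57.HP.Om_AE hκ hx0 u v)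
    (fun Y hY hxY => DOm_AE hκ hx hY hxY) (Pool.Agent.Helper91.HP.formAt_NE hM hx0)
    (fun Y hY hxY a b => cN_NE hκ hx hY hxY a b)
    (fun ζ a p q => Pool.Agent.Helper91.HP.cN_NE' hκ hx ζ a p q) U V ca sa cb sb

theorem metAt_KK {κ ε T δ : ℝ} (hκ : |κ| ≤ 1/10) (hM : ∀ y : E3, ‖y‖ = 1 → ∀ a, a ≠ 0 → 0 < Mf κ ε T δ y a a)
    {z : E3 × ℍ[ℝ]} (hz1 : z.1 ≠ 0) (hz2 : z.2 ≠ 0) :
    MetAt (KK (hE κ) (NE κ ε T δ) (AE κ ε)) z :=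
  Pool.Agent.Helper81.HP.metAt_KK (fun hκ _ hx => Pool.Agent.Helper87.HP.metAt_hE hκ hx)
    (fun hκ _ hx => Pool.Agent.Helper57.HP.contDiffAt_AE hκ hx)
    (fun hM _ hx => Pool.Agent.Helper91.HP.formAt_NE hM hx) hκ hM hz1 hz2

theorem tstage :
    ∃ κ ε T c : ℝ, 0 < κ ∧ κ ≤ 1/10 ∧ 0 < ε ∧ 0 < T ∧ 0 < c ∧ (∀ x : E3, ‖x‖ = 1 → 1/2 ≤ Kc κ x) ∧
      ∀ x X b : E3, ‖x‖ = 1 → ‖X‖ = 1 → ⟪x, X⟫ = 0 → c * ‖b‖ ^ 2 ≤ Pf κ ε T x X b :=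
  Pool.Agent.Helper50.HP.tstage
    (fun hε _ _ hx hX hxX c z y => Pool.Agent.Helper67.HP.Pf_eq_Pe hε hx hX hxX c z y)
    (Pool.Agent.Helper33.HP.tstage_kappa Pool.Agent.Helper64.HP.key_identity)

/-- **M1**: the main theorem on the local model, closed. -/
theorem main3 :
    ∃ κ ε T δ : ℝ, 0 < κ ∧ κ ≤ 1/10 ∧ 0 < δ ∧
      (∀ y : E3, ‖y‖ = 1 → ∀ a, a ≠ 0 → 0 < Mf κ ε T δ y a a) ∧
      ∀ x : E3, ‖x‖ = 1 → ∀ u v : E3 × ℍ[ℝ], ⟪x, u.1⟫ = 0 → u.2.re = 0 → ⟪x, v.1⟫ = 0 → v.2.re = 0 →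
        LinearIndependent ℝ ![u, v] → 0 < num (KK (hE κ) (NE κ ε T δ) (AE κ ε)) (x, 1) u v :=
  main3_of (fun hκ hδ hM _ _ hx hX hxX U V ca sa cb sb =>
      num3_formula hκ hδ hM hx hX hxX U V ca sa cb sb)
    (fun hκ hM _ hz1 hz2 => metAt_KK hκ hM hz1 hz2) tstage

end Pool.Agent.Helper51.HP
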